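import Pool.Agent.helper55.FLD.Spec

/-!
# FLD, row AL: a Lie algebra argument
-/

namespace Pool.Agent.FLD

open Matrix

section AL

variable {k F : Type} [Field k] [Field F] [Algebra k F]

/-- The orthogonal space of `m` for the form `f (trace (x y))`. -/
def AL_perp (f : F →ₗ[k] k) (m : Submodule k (Matrix (Fin 2) (Fin 2) F)) :
    Submodule k (Matrix (Fin 2) (Fin 2) F) where
  carrier := {x | ∀ y ∈ m, f ((x * y).trace) = 0}
  add_mem' := by
    intro a b ha hb y hy
    rw [add_mul, trace_add, map_add, ha y hy, hb y hy, add_zero]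
  zero_mem' := by
    intro y _
    simp
  smul_mem' := by
    intro c x hx y hy
    rw [smul_mul_assoc, trace_smul, map_smul, hx y hy, smul_zero]

theorem AL_mem_perp (f : F →ₗ[k] k) (m : Submodule k (Matrix (Fin 2) (Fin 2) F))
    (x : Matrix (Fin 2) (Fin 2) F) :
    x ∈ AL_perp f m ↔ ∀ y ∈ m, f ((x * y).trace) = 0 := Iff.rfl

theorem AL_perp_stable {G : Type} [Group G] (ρ : G →* Matrix (Fin 2) (Fin 2) F)
    (f : F →ₗ[k] k) (m : Submodule k (Matrix (Fin 2) (Fin 2) F))
    (hm : ∀ g, ∀ Y ∈ m, ρ g * Y * ρ g⁻¹ ∈ m) (g : G) (x : Matrix (Fin 2) (Fin 2) F)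
    (hx : x ∈ AL_perp f m) : ρ g * x * ρ g⁻¹ ∈ AL_perp f m := by
  rw [AL_mem_perp] at hx ⊢
  intro y hy
  have h1 : (ρ g * x * ρ g⁻¹ * y).trace = (x * (ρ g⁻¹ * y * ρ g)).trace := by
    have h2 : ρ g * x * ρ g⁻¹ * y = ρ g * (x * (ρ g⁻¹ * y)) := by
      simp only [mul_assoc]
    rw [h2, trace_mul_comm]
    simp only [mul_assoc]
  rw [h1]
  refine hx _ ?_
  have := hm g⁻¹ y hy
  rwa [inv_inv] at this

/-- A bilinear identity on a set extends to the span. -/
theorem AL_trace_span (m : Submodule k (Matrix (Fin 2) (Fin 2) F))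
    (h : ∀ x ∈ m, ∀ y ∈ m, (x * y).trace = 0) :
    ∀ x ∈ Submodule.span F (m : Set (Matrix (Fin 2) (Fin 2) F)),
    ∀ y ∈ Submodule.span F (m : Set (Matrix (Fin 2) (Fin 2) F)), (x * y).trace = 0 := by
  intro x hx
  induction hx using Submodule.span_induction with
  | mem x hx =>
    intro y hy
    induction hy using Submodule.span_induction with
    | mem y hy => exact h x hx y hy
    | zero => simp
    | add y z _ _ hy hz => rw [mul_add, trace_add, hy, hz, add_zero]
    | smul a y _ hy => rw [mul_smul_comm, trace_smul, hy, smul_zero]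
  | zero => intro y _; simp
  | add x z _ _ hx hz =>
    intro y hy
    rw [add_mul, trace_add, hx y hy, hz y hy, add_zero]
  | smul a x _ hx =>
    intro y hy
    rw [smul_mul_assoc, trace_smul, hx y hy, smul_zero]

theorem AL_comm_span (m : Submodule k (Matrix (Fin 2) (Fin 2) F))
    (Y : Matrix (Fin 2) (Fin 2) F) (h : ∀ x ∈ m, Y * x = x * Y) :
    ∀ x ∈ Submodule.span F (m : Set (Matrix (Fin 2) (Fin 2) F)), Y * x = x * Y := by
  intro x hx
  induction hx using Submodule.span_induction with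
  | mem x hx => exact h x hx
  | zero => simp
  | add x z _ _ hx hz => rw [mul_add, add_mul, hx, hz]
  | smul a x _ hx => rw [mul_smul_comm, smul_mul_assoc, hx]

theorem AL_zero [CharZero F] (Y : Matrix (Fin 2) (Fin 2) F) (hY : Y.trace = 0)
    (h : ∀ x : Matrix (Fin 2) (Fin 2) F, x.trace = 0 → Y * x = x * Y) : Y = 0 := by
  have h1 := h !![1, 0; 0, -1] (by simp [trace_fin_two])
  have h2 := h !![0, 1; 0, 0] (by simp [trace_fin_two])
  have h01 := congrFun (congrFun h1 0) 1
  have h10 := congrFun (congrFun h1 1) 0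
  have h01' := congrFun (congrFun h2 0) 1
  simp [mul_apply, Fin.sum_univ_two] at h01 h10 h01'
  rw [trace_fin_two] at hY
  have e01 : Y 0 1 = 0 := by
    have h3 : (2 : F) * Y 0 1 = 0 := by linear_combination -h01
    rcases mul_eq_zero.mp h3 with h4 | h4
    · exact absurd h4 two_ne_zero
    · exact h4
  have e10 : Y 1 0 = 0 := by
    have h3 : (2 : F) * Y 1 0 = 0 := by linear_combination h10
    rcases mul_eq_zero.mp h3 with h4 | h4
    · exact absurd h4 two_ne_zero
    · exact h4
  have e00 : Y 0 0 = 0 := by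
    have h3 : (2 : F) * Y 0 0 = 0 := by linear_combination hY + h01'
    rcases mul_eq_zero.mp h3 with h4 | h4
    · exact absurd h4 two_ne_zero
    · exact h4
  have e11 : Y 1 1 = 0 := by
    rw [e00, zero_add] at hY
    exact hY
  ext i j
  fin_cases i <;> fin_cases j <;> simp [e00, e01, e10, e11]

/-- The map `m → Dual m` given by the form. -/
def AL_map (f : F →ₗ[k] k) (m : Submodule k (Matrix (Fin 2) (Fin 2) F)) :
    Matrix (Fin 2) (Fin 2) F →ₗ[k] Module.Dual k m where
  toFun x :=
    { toFun := fun y => f ((x * (y : Matrix (Fin 2) (Fin 2) F)).trace)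
      map_add' := by
        intro y z
        rw [Submodule.coe_add, mul_add, trace_add, map_add]
      map_smul' := by
        intro c y
        rw [Submodule.coe_smul, mul_smul_comm, trace_smul, map_smul, RingHom.id_apply] }
  map_add' := by
    intro x z
    ext y
    simp only [LinearMap.coe_mk, AddHom.coe_mk, LinearMap.add_apply]
    rw [add_mul, trace_add, map_add]
  map_smul' := by
    intro c x
    ext y
    simp only [LinearMap.coe_mk, AddHom.coe_mk, LinearMap.smul_apply, RingHom.id_apply]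
    rw [smul_mul_assoc, trace_smul, map_smul]

theorem AL_map_apply (f : F →ₗ[k] k) (m : Submodule k (Matrix (Fin 2) (Fin 2) F))
    (x : Matrix (Fin 2) (Fin 2) F) (y : m) :
    AL_map f m x y = f ((x * (y : Matrix (Fin 2) (Fin 2) F)).trace) := rfl

/-- If the form is nondegenerate on `m`, orthogonal projection to `m` exists. -/
theorem AL_proj (f : F →ₗ[k] k) (m : Submodule k (Matrix (Fin 2) (Fin 2) F))
    [FiniteDimensional k m] (h : m ⊓ AL_perp f m = ⊥) (x : Matrix (Fin 2) (Fin 2) F) :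
    ∃ x' ∈ m, x - x' ∈ AL_perp f m := by
  let φ : m →ₗ[k] Module.Dual k m := (AL_map f m).comp m.subtype
  have hinj : Function.Injective φ := by
    rw [← LinearMap.ker_eq_bot, LinearMap.ker_eq_bot']
    intro y hy
    have h1 : (y : Matrix (Fin 2) (Fin 2) F) ∈ m ⊓ AL_perp f m := by
      refine ⟨y.2, ?_⟩
      intro z hz
      have h2 := LinearMap.congr_fun hy ⟨z, hz⟩
      exact h2
    rw [h, Submodule.mem_bot] at h1
    exact Subtype.ext h1
  have hsurj : Function.Surjective φ :=
    (LinearMap.injective_iff_surjective_of_finrank_eq_finrank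
      (Subspace.dual_finrank_eq (K := k) (V := m)).symm).mp hinj
  obtain ⟨x', hx'⟩ := hsurj (AL_map f m x)
  refine ⟨x', x'.2, ?_⟩
  intro y hy
  have h2 := LinearMap.congr_fun hx' ⟨y, hy⟩
  have h3 : f (((x' : Matrix (Fin 2) (Fin 2) F) * y).trace) = f ((x * y).trace) := h2
  rw [sub_mul, trace_sub, map_sub, h3, sub_self]

end AL

theorem AL : AL_stmt := by
  intro k F _ _ _ _ G _ ρ b n _ hb hnb hn0 hbs hns hid hirr
  classical
  -- a minimal stable subspace
  let P : ℕ → Prop := fun d => ∃ m : Submodule k (Matrix (Fin 2) (Fin 2) F),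
    m ≤ n ∧ m ≠ ⊥ ∧ (∀ g, ∀ Y ∈ m, ρ g * Y * ρ g⁻¹ ∈ m) ∧ Module.finrank k m = d
  have hP : ∃ d, P d := ⟨_, n, le_rfl, hn0, hns, rfl⟩
  obtain ⟨m, hmn, hm0, hms, hmd⟩ := Nat.find_spec hP
  have hmb : m ≤ b := hmn.trans hnb
  haveI : FiniteDimensional k m := Submodule.finiteDimensional_of_le hmb
  have hmin : ∀ S : Submodule k (Matrix (Fin 2) (Fin 2) F), S ≤ m → S ≠ ⊥ →
      (∀ g, ∀ Y ∈ S, ρ g * Y * ρ g⁻¹ ∈ S) → S = m := by
    intro S hSm hS0 hSs
    have h1 : Nat.find hP ≤ Module.finrank k S :=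
      Nat.find_min' hP ⟨S, hSm.trans hmn, hS0, hSs, rfl⟩
    rw [← hmd] at h1
    exact Submodule.eq_of_le_of_finrank_le hSm h1
  -- the F-span of m contains everything
  have hspan : ∀ Y : Matrix (Fin 2) (Fin 2) F, Y.trace = 0 →
      Y ∈ Submodule.span F (m : Set (Matrix (Fin 2) (Fin 2) F)) := by
    refine hirr _ ?_ ?_ ?_
    · intro h
      apply hm0
      rw [Submodule.span_eq_bot] at h
      rw [Submodule.eq_bot_iff]
      intro x hx
      exact h x hx
    · intro Y hY
      induction hY using Submodule.span_induction with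
      | mem x hx => exact hb x (hmb hx)
      | zero => simp
      | add x y _ _ hx hy => rw [trace_add, hx, hy, add_zero]
      | smul a x _ hx => rw [trace_smul, hx, smul_zero]
    · intro g Y hY
      induction hY using Submodule.span_induction with
      | mem x hx => exact Submodule.subset_span (hms g x hx)
      | zero => simp
      | add x y _ _ hx hy =>
        rw [mul_add, add_mul]
        exact Submodule.add_mem _ hx hy
      | smul a x _ hx =>
        rw [mul_smul_comm, smul_mul_assoc]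
        exact Submodule.smul_mem _ _ hx
  -- a nonzero value of the trace form
  have hne : ∃ x ∈ m, ∃ y ∈ m, (x * y).trace ≠ 0 := by
    by_contra hcon
    push_neg at hcon
    have h1 := AL_trace_span m hcon !![1, 0; 0, -1]
      (hspan _ (by simp [trace_fin_two])) !![1, 0; 0, -1] (hspan _ (by simp [trace_fin_two]))
    have h2 : ((!![1, 0; 0, -1] : Matrix (Fin 2) (Fin 2) F) * !![1, 0; 0, -1]).trace = 2 := by
      simp [trace_fin_two, mul_apply, Fin.sum_univ_two]
      norm_num
    rw [h2] at h1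
    exact two_ne_zero h1
  obtain ⟨x₀, hx₀, y₀, hy₀, hxy⟩ := hne
  have hf : ∃ f : F →ₗ[k] k, f ((x₀ * y₀).trace) ≠ 0 := by
    by_contra hcon
    push_neg at hcon
    exact hxy ((Module.forall_dual_apply_eq_zero_iff k _).mp hcon)
  obtain ⟨f, hf⟩ := hf
  -- the radical is zero
  have hrad : m ⊓ AL_perp f m = ⊥ := by
    by_contra hcon
    have h1 := hmin (m ⊓ AL_perp f m) inf_le_left hcon (by
      intro g Y hY
      exact ⟨hms g Y hY.1, AL_perp_stable ρ f m hms g Y hY.2⟩)
    have h2 : x₀ ∈ m ⊓ AL_perp f m := by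
      rw [h1]
      exact hx₀
    exact hf (h2.2 y₀ hy₀)
  -- the orthogonal space in b is zero
  have hqs : ∀ g, ∀ Y ∈ b ⊓ AL_perp f m, ρ g * Y * ρ g⁻¹ ∈ b ⊓ AL_perp f m := by
    intro g Y hY
    exact ⟨hbs g Y hY.1, AL_perp_stable ρ f m hms g Y hY.2⟩
  have hq : ∀ Y ∈ b ⊓ AL_perp f m, Y = 0 := by
    intro Y hY
    refine AL_zero Y (hb Y hY.1) ?_
    intro x hx
    refine AL_comm_span m Y ?_ x (hspan x hx)
    intro W hW
    have h1 : Y * W - W * Y ∈ m := hid m hmb hms Y hY.1 W hW
    have h2 : W * Y - Y * W ∈ b ⊓ AL_perp f m :=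
      hid (b ⊓ AL_perp f m) inf_le_left hqs W (hmb hW) Y hY
    have h3 : Y * W - W * Y ∈ AL_perp f m := by
      have h4 := (AL_perp f m).neg_mem h2.2
      rwa [neg_sub] at h4
    have h5 : Y * W - W * Y ∈ m ⊓ AL_perp f m := ⟨h1, h3⟩
    rw [hrad, Submodule.mem_bot, sub_eq_zero] at h5
    exact h5
  refine le_antisymm hnb ?_
  intro x hx
  obtain ⟨x', hx', hxx⟩ := AL_proj f m hrad x
  have h1 := hq (x - x') ⟨b.sub_mem hx (hmb hx'), hxx⟩
  rw [sub_eq_zero] at h1
  rw [h1]
  exact hmn hx'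

end Pool.Agent.FLD
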